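import Pool.Agent.Q171.RB.Main

/-!
# MP_42a48c_pr, Q1: the almost sure Schramm bound

For every connected locally finite graph `G`, every choice of single-orbit mechanisms `τ`, every
start vertex `a`: if `ρ` is sampled from the oriented wired uniform spanning forest, then almost
surely `limsup S_n(ρ,x)/n ≤ 𝒢(x)` for every vertex `x`, where `S_n(ρ,x)` counts the visits to `x`
during `n` successive rotor walks from `a` and `𝒢(x)` is the expected number of visits to `x` of
simple random walk from `a`.  (For transient `G` this is Q1; for recurrent `G` the right side is
infinite.)

Idea: on a finite set `W` with sink, one excursion of rotor walk is a bijection of the acyclic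
configurations, so the visits during blocks of `m` excursions form a stationary sequence; the
maximal ergodic inequality, applied to the excess of these visits over the visits of the walk
killed on a smaller set `W'` (which are within a constant `C(W')` of `m 𝒢_{W'}(x)`), bounds the
probability that `S^W_{km} > (𝒢 + ε) k m` for some `k`, uniformly in `W`.  Least action
principles compare different `W` and the infinite walks.
-/

namespace Pool.Agent.Results.MP_42a48c_pr.AlmostSureSchramm

open MeasureTheory Filter Pool.Agent.Q171.RB
open scoped ENNReal

/-- The almost sure Schramm bound for rotor walk started from `OWUSF`. -/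
theorem result {V : Type*} [DecidableEq V] (G : SimpleGraph V) [G.LocallyFinite]
    (hG : G.Connected) (τ : Mech G) (hτ : SingleOrbit τ) (a : V)
    (P : Measure (Cfg G)) (hP : IsOWUSF P) :
    ∀ᵐ ρ ∂P, ∀ x : V,
      limsup (fun n : ℕ => S τ a n ρ x / (n : ℝ≥0∞)) atTop ≤ green G a x :=
  schramm hG τ hτ a hP

end Pool.Agent.Results.MP_42a48c_pr.AlmostSureSchramm
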